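import Mathlib
import Pool.Agent.H2.MG12

set_option autoImplicit false

namespace Pool.Agent.Results.MP_27feec_al.Quotient

open Filter Topology Set

/-- locally minimal -/
def LocMinimal (G : Type) [AddCommGroup G] [t : TopologicalSpace G] : Prop :=
  ∃ V ∈ nhds (0 : G), ∀ s : TopologicalSpace G, @IsTopologicalAddGroup G s _ → @T2Space G s →
    t ≤ s → V ∈ @nhds G s 0 → s = t

/-- Quotients of complete locally minimal abelian groups by compact subgroups are locally minimal. -/
theorem result (G : Type) [AddCommGroup G] [UniformSpace G] [IsUniformAddGroup G] [T2Space G]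
    [CompleteSpace G] (h : LocMinimal G) (K : AddSubgroup G) (hK : IsCompact (K : Set G)) :
    LocMinimal (G ⧸ K) := by
  obtain ⟨V, hV, h⟩ := h
  have : T2Space (Multiplicative G) := inferInstanceAs (T2Space G)
  obtain ⟨U, hU, h1⟩ := H2.MG.pp_top (G := Multiplicative G) hV (H2.MG.add_lm h)
    (K := AddSubgroup.toSubgroup K) hK
  let U' : Set G := U
  have h2 : IsTopologicalAddGroup (G ⧸ K) := inferInstance
  have h4 : QuotientAddGroup.mk '' U' ∈ 𝓝 (0 : G ⧸ K) := by
    rw [← QuotientAddGroup.mk_zero, QuotientAddGroup.nhds_eq]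
    exact image_mem_map hU
  have h3 := fun y => (QuotientAddGroup.continuous_mk (N := K)).tendsto y
  refine ⟨_, h4, fun s a b c d => IsTopologicalAddGroup.ext a h2 (le_antisymm ?_ (nhds_mono c))⟩
  rw [← map_comap_of_surjective QuotientAddGroup.mk_surjective (@nhds _ s 0)]
  refine map_le_iff_le_comap.2 (le_iff_ultrafilter.2 fun F hF => ?_)
  have h6 : {x : G | ∃ k : K, x - k ∈ U'} ∈ comap QuotientAddGroup.mk (@nhds _ s 0) :=
    mem_of_superset (preimage_mem_comap d) fun x ⟨u, h5, h6⟩ =>
      ⟨⟨_, QuotientAddGroup.eq.1 h6⟩, by simpa using h5⟩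
  obtain ⟨y, hy⟩ := H2.MG.add_conv (G := G) (h1 _ ((H2.MG.add_gf s a).comap
    (AddMonoidHom.toMultiplicative (QuotientAddGroup.mk' K))) (mem_of_superset h6
      fun x ⟨k, hk⟩ => ⟨k, trivial, hk⟩)) F hF
  have h5 := (h3 y).mono_left hy
  rw [tendsto_nhds_unique (h5.mono_right (nhds_mono c)) (tendsto_iff_comap.2 hF)] at h5
  exact tendsto_iff_comap.1 h5

end Pool.Agent.Results.MP_27feec_al.Quotient
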